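import Pool.Agent.Results.MP_f56686_gt.FreeGroupTukey

/-!
# MP_849c2a_gt: the Tukey bound `𝒩_e(F(X, 𝒰)) ≤_T ω^ω × 𝒰^ω` fails for an `ω`-narrow space
-/

open Set Filter Topology Uniformity

namespace Pool.Agent.Results.MP_849c2a_gt.ProductBoundFails

open Pool.Agent.Results.MP_f56686_gt.FreeGroupTukey

theorem not_tukeyLE_prod {t : TopologicalSpace (FreeGroup Sp)} (ht : IsFreeTopology Sp t) :
    ¬ TukeyLE (IdNhds t) ((ℕ → ℕ) × (ℕ → Entourages Sp)) := by
  rintro ⟨θ, hθ⟩
  -- step one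
  have h1 : ∀ φ : {φ : K → ℕ // {x | φ x ≠ 0}.Countable},
      ∃ (f : ℕ → ℕ) (D : {D : Set K // D.Countable}), ∀ D' : {D : Set K // D.Countable},
      D.1 ⊆ D'.1 → (OrderDual.ofDual (θ (fun n => (f n).unpair.1,
        Q (fun n => (f n).unpair.2) D'))).1 ⊆ Vset φ.1 := by
    intro φ
    obtain ⟨⟨h, q⟩, hq⟩ := exists_bound hθ (OrderDual.toDual ⟨Vset φ.1, Vset_mem φ.2 ht⟩)
    obtain ⟨f, D, h1⟩ := exists_Q_ge q
    refine ⟨fun n => Nat.pair (h n) (f n), D, fun D' hD' => ?_⟩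
    simp only [Nat.unpair_pair]
    exact hq _ ⟨le_rfl, h1 D' hD'⟩
  choose F D hFD using h1
  -- step two
  have h2 : ∀ (x : K) (f : ℕ → ℕ), ∃ b : ℕ, ∀ φ, F φ = f → φ.1 x ≤ b := by
    intro x f
    by_contra hcon
    push Not at hcon
    choose φ hφ h3 using hcon
    have hc : (⋃ k, (D (φ k)).1).Countable := countable_iUnion fun k => (D (φ k)).2
    obtain ⟨n, hn⟩ := wd_mem ht.1 (OrderDual.ofDual (θ (fun n => (f n).unpair.1,
      Q (fun n => (f n).unpair.2) ⟨_, hc⟩))).2 x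
    have h4 := hFD (φ n) ⟨_, hc⟩ (subset_iUnion (fun k => (D (φ k)).1) n)
    rw [hφ n] at h4
    exact wd_not_mem (φ n).1 x (h4 (hn _ (h3 n).le))
  choose b hb using h2
  -- step three
  obtain ⟨g, hg⟩ := Cardinal.exists_infinite_fiber (β := K) (α := (ℕ → ℕ) → ℕ) b
    (by rw [Cardinal.mk_set]; exact Cardinal.cantor _)
  classical
  let z : ℕ ↪ (b ⁻¹' {g} : Set K) := Infinite.natEmbedding _
  let z' : ℕ → K := fun i => (z i).1
  have hz' : Function.Injective z' := Subtype.val_injective.comp z.injective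
  let φ : K → ℕ := fun x => if h : ∃ i, z' i = x then h.choose else 0
  have hφz : ∀ i, φ (z' i) = i := by
    intro i
    have hex : ∃ j, z' j = z' i := ⟨i, rfl⟩
    have : φ (z' i) = hex.choose := by
      simp only [φ]
      rw [dif_pos hex]
    rw [this]
    exact hz' hex.choose_spec
  have hφc : {x | φ x ≠ 0}.Countable := by
    refine (countable_range z').mono ?_
    intro x hx
    by_contra hcon
    apply hx
    simp only [φ]
    rw [dif_neg]
    rintro ⟨i, hi⟩
    exact hcon ⟨i, hi⟩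
  let f := F ⟨φ, hφc⟩
  have h5 : ∀ i, i ≤ g f := by
    intro i
    have h6 : b (z' i) = g := (z i).2
    have h7 := hb (z' i) f ⟨φ, hφc⟩ rfl
    rw [h6] at h7
    simpa [hφz i] using h7
  exact absurd (h5 (g f + 1)) (by omega)

/-- Over every uniform space there is a finest admissible topology (`freeTopology`), and there is a
Hausdorff `ω`-narrow uniform space `X` for which `𝒩_e(F(X))` is not Tukey below
`ω ^ ω × 𝒰 ^ ω`. -/
theorem result :
    (∀ (X : Type) [UniformSpace X], IsFreeTopology X (freeTopology X)) ∧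
    ∃ (X : Type) (_ : UniformSpace X), T2Space X ∧ OmegaNarrow X ∧
      ¬ TukeyLE (IdNhds (freeTopology X)) ((ℕ → ℕ) × (ℕ → Entourages X)) :=
  ⟨fun X _ => isFreeTopology_freeTopology X, Sp, unif, t2, omegaNarrow,
    not_tukeyLE_prod (isFreeTopology_freeTopology Sp)⟩

end Pool.Agent.Results.MP_849c2a_gt.ProductBoundFails
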